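import Mathlib
import Pool.Agent.H46.P5Defs
import Pool.Agent.H46.P5d
import Pool.Agent.H46.W7
import Pool.Agent.H46.Fam
import Pool.Agent.H46.Classify

/-!
# Vertex-critical `(P₅, H)`-free graphs for `H` of order five: the dichotomy

For a graph `H` on five vertices the set of `k`-vertex-critical `(P₅, H)`-free graphs is finite for
every `k` if and only if `H` contains none of `2P₂`, `K₃ + P₁`, `C₅`, `K₅` as an induced subgraph.
-/

namespace Pool.Agent.Results.MP_33dc3a_co.Dichotomy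

open Pool.Agent.H46.P5

theorem crit_of {V : Type*} [Fintype V] [DecidableEq V] {G : SimpleGraph V} {c : ℕ}
    (h : IsVertexCritical G (c + 1)) : Crit G c := by
  classical
  obtain ⟨h1, h2⟩ := h
  constructor
  · rintro ⟨f, hf1, hf2⟩
    have hc : G.Colorable c := ⟨SimpleGraph.Coloring.mk (fun v => (⟨f v, hf1 v⟩ : Fin c))
      (fun {a b} hab h' => hf2 a b hab (Fin.mk.inj_iff.1 h'))⟩
    have := hc.chromaticNumber_le
    rw [h1] at this
    have := Nat.cast_le.1 this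
    omega
  · intro v
    have hv : (G.induce {v}ᶜ).chromaticNumber ≤ (c : ℕ∞) :=
      Order.le_of_lt_add_one (by exact_mod_cast h2 v)
    obtain ⟨g⟩ := SimpleGraph.chromaticNumber_le_iff_colorable.1 hv
    refine ⟨fun x => if hx : x ≠ v then (g ⟨x, hx⟩ : ℕ) else 0, fun x hx => ?_,
      fun x y hx hy hxy => ?_⟩
    · simp only [dif_pos hx]
      exact (g ⟨x, hx⟩).2
    · simp only [dif_pos hx, dif_pos hy]
      intro h'
      exact g.valid (v := ⟨x, hx⟩) (w := ⟨y, hy⟩) hxy (Fin.ext h')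

theorem finite_of_bounded (S : Set (Σ m : ℕ, SimpleGraph (Fin m))) (n : ℕ)
    (h : ∀ G ∈ S, G.1 < n) : S.Finite := by
  refine Set.Finite.subset (s := ⋃ m ∈ Set.Iio n, Set.range (fun G : SimpleGraph (Fin m) =>
    (⟨m, G⟩ : Σ m : ℕ, SimpleGraph (Fin m)))) ?_ ?_
  · exact (Set.finite_Iio n).biUnion (fun m _ => Set.finite_range _)
  · rintro ⟨m, G⟩ hG
    simp only [Set.mem_iUnion]
    exact ⟨m, h _ hG, G, rfl⟩

theorem finite_zero {W : Type*} (H : SimpleGraph W) : (critSet 0 H).Finite := by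
  apply finite_of_bounded _ 1
  rintro ⟨m, G⟩ ⟨⟨h1, h2⟩, -, -⟩
  rcases m with _ | m
  · exact Nat.one_pos
  · exact absurd (h2 0) (by simp)

/-- Finiteness for induced subgraphs of the double half graph. -/
theorem finite_doubleHalf {W : Type*} [Finite W] (H : SimpleGraph W)
    (hH : Nonempty (H ↪g doubleHalf)) (k : ℕ) : (critSet k H).Finite := by
  obtain ⟨φ⟩ := hH
  rcases k with _ | c
  · exact finite_zero H
  · obtain ⟨n, hn⟩ := main φ c
    apply finite_of_bounded _ n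
    rintro ⟨m, G⟩ ⟨h1, h2, h3⟩
    by_contra hm
    obtain ⟨ψ⟩ := hn G (crit_of h1) (noP5_of_free h2) (by
      rw [Fintype.card_fin]
      exact not_lt.1 hm)
    exact h3.false ψ

theorem noK5e_of {V : Type*} {G : SimpleGraph V} (h : IsEmpty (K5e ↪g G)) : NoK5e G := by
  intro a b c d e hab nab hac had hae hbc hbd hbe hcd hce hde
  obtain ⟨ψ⟩ := emb_of_lt K5e G ![a, b, c, d, e] (by
    intro i j hij
    have := hac.ne
    have := had.ne
    have := hae.ne
    have := hbc.ne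
    have := hbd.ne
    have := hbe.ne
    have := hcd.ne
    have := hce.ne
    have := hde.ne
    fin_cases i <;> fin_cases j <;> first
      | (exfalso; revert hij; decide)
      | simp [K5e, ofPairs, *])
  exact h.false ψ

theorem noCo_of {V : Type*} {G : SimpleGraph V} (h : IsEmpty (coP3P1P1 ↪g G)) : NoCo G := by
  intro a b c d e hab hac had hbc hbd hcd hea heb nec ned
  -- `e` misses `c` and `d`: centre of the missing path is `e`
  obtain ⟨ψ⟩ := emb_of_lt coP3P1P1 G ![c, e, d, a, b] (by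
    intro i j hij
    have := hab.ne
    have := hac.ne'
    have := had.ne'
    have := hbc.ne'
    have := hbd.ne'
    have := hcd.ne
    have := hea.ne
    have := heb.ne
    have h1 : e ≠ c := by rintro rfl; exact ned hcd
    have h2 : e ≠ d := by rintro rfl; exact nec hcd.symm
    have := h1.symm
    have := hac.symm
    have := had.symm
    have := hbc.symm
    have := hbd.symm
    have h3 : ¬ G.Adj c e := fun h => nec h.symm
    fin_cases i <;> fin_cases j <;> first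
      | (exfalso; revert hij; decide)
      | simp [coP3P1P1, ofPairs, *])
  exact h.false ψ

theorem finite_of_free {W : Type*} (H : SimpleGraph W)
    (hH : Nonempty (H ↪g K5e) ∨ Nonempty (H ↪g coP3P1P1)) (k : ℕ) : (critSet k H).Finite := by
  rcases k with _ | c
  · exact finite_zero H
  · obtain ⟨n, hn⟩ := bounded_of_free.{0} c
    apply finite_of_bounded _ n
    rintro ⟨m, G⟩ ⟨h1, h2, h3⟩
    have := hn G (crit_of h1) (noP5_of_free h2) (by
      rcases hH with ⟨⟨φ⟩⟩ | ⟨⟨φ⟩⟩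
      · exact Or.inl (noK5e_of ⟨fun ψ => h3.false (ψ.comp φ)⟩)
      · exact Or.inr (noCo_of ⟨fun ψ => h3.false (ψ.comp φ)⟩))
    rwa [Fintype.card_fin] at this

/-- `fam c t` contains no induced `2P₂` when `4 ≤ c`. -/
theorem fam_2P2 {c t : ℕ} (hc : 4 ≤ c) : IsEmpty (twoP2 ↪g fam c t) := by
  have hm : 4 * (t + 1) ≤ c * (t + 1) := Nat.mul_le_mul_right _ hc
  refine ⟨fun φ => ?_⟩
  have e : ∀ i j : Fin 4, FAdj (c * (t + 1) + 1) (t + 1) (φ i) (φ j) ↔ twoP2.Adj i j :=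
    fun i j => φ.map_adj_iff
  refine f_2P2 (c * (t + 1) + 1) (t + 1) (φ 0) (φ 1) (φ 2) (φ 3) (by omega) (by omega)
    (φ 0).2 (φ 1).2 (φ 2).2 (φ 3).2 ?_ ?_ ?_ ?_ ?_ ?_ <;> rw [e] <;> simp [twoP2, ofPairs]

/-- `fam c t` contains no induced `K₃ + P₁` when `4 ≤ c`. -/
theorem fam_K3P1 {c t : ℕ} (hc : 4 ≤ c) : IsEmpty (K3P1 ↪g fam c t) := by
  have hm : 4 * (t + 1) ≤ c * (t + 1) := Nat.mul_le_mul_right _ hc
  refine ⟨fun φ => ?_⟩
  have e : ∀ i j : Fin 4, FAdj (c * (t + 1) + 1) (t + 1) (φ i) (φ j) ↔ K3P1.Adj i j :=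
    fun i j => φ.map_adj_iff
  refine f_K3P1 (c * (t + 1) + 1) (t + 1) (φ 3) (φ 0) (φ 1) (φ 2) (by omega) (by omega)
    (φ 3).2 (φ 0).2 (φ 1).2 (φ 2).2 ?_ ?_ ?_ ?_ ?_ ?_ <;> rw [e] <;> simp [K3P1, ofPairs]

/-- `fam 4 t` contains no `K₅` when `1 ≤ t`. -/
theorem fam_K5 {t : ℕ} (ht : 1 ≤ t) : IsEmpty ((⊤ : SimpleGraph (Fin 5)) ↪g fam 4 t) := by
  refine ⟨fun φ => ?_⟩
  have e : ∀ i j : Fin 5, i ≠ j → FAdj (4 * (t + 1) + 1) (t + 1) (φ i) (φ j) :=
    fun i j hij => φ.map_adj_iff.2 hij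
  exact f_K5 (4 * (t + 1) + 1) (t + 1) (φ 0) (φ 1) (φ 2) (φ 3) (φ 4) (by omega) (by omega)
    (φ 0).2 (φ 1).2 (φ 2).2 (φ 3).2 (φ 4).2 (e _ _ (by decide)) (e _ _ (by decide))
    (e _ _ (by decide)) (e _ _ (by decide)) (e _ _ (by decide)) (e _ _ (by decide))
    (e _ _ (by decide)) (e _ _ (by decide)) (e _ _ (by decide)) (e _ _ (by decide))

/-- `fam 5 t` contains no induced `C₅`. -/
theorem fam_C5 {t : ℕ} : IsEmpty (SimpleGraph.cycleGraph 5 ↪g fam 5 t) := by
  refine ⟨fun φ => ?_⟩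
  have e : ∀ i j : Fin 5, FAdj (5 * (t + 1) + 1) (t + 1) (φ i) (φ j) ↔
    (SimpleGraph.cycleGraph 5).Adj i j := fun i j => φ.map_adj_iff
  refine f_C5 (5 * (t + 1) + 1) (t + 1) (φ 0) (φ 1) (φ 2) (φ 3) (φ 4) (by omega) (by omega)
    (φ 0).2 (φ 1).2 (φ 2).2 (φ 3).2 (φ 4).2 ?_ ?_ ?_ ?_ ?_ ?_ ?_ ?_ ?_ ?_ <;> rw [e] <;> decide

/-- `P₅` contains an induced `2P₂`. -/
theorem twoP2_P5 : Nonempty (twoP2 ↪g SimpleGraph.pathGraph 5) := by
  apply emb_of_lt _ _ ![0, 1, 3, 4]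
  intro i j hij
  refine ⟨?_, ?_⟩
  · revert i j
    decide
  · fin_cases i <;> fin_cases j <;> simp [twoP2, ofPairs, SimpleGraph.pathGraph_adj]

theorem fam_P5 {c t : ℕ} (hc : 4 ≤ c) : IsEmpty (SimpleGraph.pathGraph 5 ↪g fam c t) := by
  obtain ⟨φ⟩ := twoP2_P5
  exact ⟨fun ψ => (fam_2P2 hc).false (ψ.comp φ)⟩

theorem infinite_of {W : Type*} (H : SimpleGraph W) (c : ℕ) (hc : 4 ≤ c)
    (hH : ∀ t, 1 ≤ t → IsEmpty (H ↪g fam c t)) : (critSet (c + 1) H).Infinite := by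
  refine Set.infinite_of_injective_forall_mem
    (f := fun t : ℕ => (⟨c * (t + 1 + 1) + 1, fam c (t + 1)⟩ : Σ m : ℕ, SimpleGraph (Fin m)))
    ?_ ?_
  · intro t t' h
    have h1 : c * (t + 1 + 1) + 1 = c * (t' + 1 + 1) + 1 := (Sigma.mk.inj_iff.1 h).1
    have h2 : c * (t + 1 + 1) = c * (t' + 1 + 1) := Nat.succ_injective h1
    have h3 := Nat.eq_of_mul_eq_mul_left (by omega) h2
    omega
  · intro t
    exact ⟨critical (by omega), fam_P5 hc, hH _ (by omega)⟩

/-- If `H` contains `2P₂`, `K₃ + P₁`, `C₅` or `K₅`, some `critSet k H` is infinite. -/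
theorem infinite_cases {W : Type*} (H : SimpleGraph W)
    (h : Nonempty (twoP2 ↪g H) ∨ Nonempty (K3P1 ↪g H) ∨
      Nonempty (SimpleGraph.cycleGraph 5 ↪g H) ∨ Nonempty ((⊤ : SimpleGraph (Fin 5)) ↪g H)) :
    (critSet 5 H).Infinite ∨ (critSet 6 H).Infinite := by
  rcases h with ⟨⟨φ⟩⟩ | ⟨⟨φ⟩⟩ | ⟨⟨φ⟩⟩ | ⟨⟨φ⟩⟩
  · exact Or.inl (infinite_of H 4 le_rfl
      (fun t _ => ⟨fun ψ => (fam_2P2 le_rfl).false (ψ.comp φ)⟩))
  · exact Or.inl (infinite_of H 4 le_rfl
      (fun t _ => ⟨fun ψ => (fam_K3P1 le_rfl).false (ψ.comp φ)⟩))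
  · exact Or.inr (infinite_of H 5 (by norm_num)
      (fun t _ => ⟨fun ψ => fam_C5.false (ψ.comp φ)⟩))
  · exact Or.inl (infinite_of H 4 le_rfl
      (fun t ht => ⟨fun ψ => (fam_K5 ht).false (ψ.comp φ)⟩))

/-- **Dichotomy.** For a graph `H` on five vertices there are only finitely many
`k`-vertex-critical `(P₅, H)`-free graphs for every `k ≥ 1` if and only if `H` has no induced
subgraph `2P₂`, `K₃ + P₁`, `C₅` or `K₅`. -/
theorem dichotomy (H : SimpleGraph (Fin 5)) :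
    (∀ k : ℕ, 1 ≤ k → (critSet k H).Finite) ↔
      (IsEmpty (twoP2 ↪g H) ∧ IsEmpty (K3P1 ↪g H) ∧
        IsEmpty (SimpleGraph.cycleGraph 5 ↪g H) ∧ IsEmpty ((⊤ : SimpleGraph (Fin 5)) ↪g H)) := by
  constructor
  · intro h
    by_contra hne
    simp only [not_and_or, not_isEmpty_iff] at hne
    rcases infinite_cases H hne with h' | h'
    · exact h' (h 5 (by norm_num))
    · exact h' (h 6 (by norm_num))
  · rintro ⟨h1, h2, h3, h4⟩ k -
    rcases classify H with h | h | h | h | h | h | h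
    · exact (h1.false h.some).elim
    · exact (h2.false h.some).elim
    · exact (h3.false h.some).elim
    · exact (h4.false h.some).elim
    · exact finite_doubleHalf H h k
    · exact finite_of_free H (Or.inl h) k
    · exact finite_of_free H (Or.inr h) k

theorem emb_of (H : SimpleGraph (Fin 5)) (f : Fin 5 → Vtx)
    (hf : Function.Injective f) (h : ∀ i j, doubleHalf.Adj (f i) (f j) ↔ H.Adj i j) :
    Nonempty (H ↪g doubleHalf) := ⟨⟨⟨f, hf⟩, fun {i j} => h i j⟩⟩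

theorem emb_5P1 : Nonempty ((⊥ : SimpleGraph (Fin 5)) ↪g doubleHalf) := by
  apply emb_of _ ![.mid 0, .mid 1, .mid 2, .mid 3, .mid 4]
  · decide
  · intro i j
    fin_cases i <;> fin_cases j <;> simp [doubleHalf, dhRel]

theorem emb_P4P1 : Nonempty (P4P1 ↪g doubleHalf) := by
  apply emb_of _ ![.mid 0, .hub, .mid 1, .down 1, .down 2]
  · decide
  · intro i j
    fin_cases i <;> fin_cases j <;> simp [P4P1, ofPairs, doubleHalf, dhRel]

theorem emb_C4P1 : Nonempty (C4P1 ↪g doubleHalf) := by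
  apply emb_of _ ![.hub, .mid 0, .down 0, .mid 1, .down 2]
  · decide
  · intro i j
    fin_cases i <;> fin_cases j <;> simp [C4P1, ofPairs, doubleHalf, dhRel]

theorem emb_chair : Nonempty (chair ↪g doubleHalf) := by
  apply emb_of _ ![.hub, .mid 0, .mid 1, .mid 2, .down 2]
  · decide
  · intro i j
    fin_cases i <;> fin_cases j <;> simp [chair, ofPairs, doubleHalf, dhRel]

theorem emb_bull : Nonempty (bull ↪g doubleHalf) := by
  apply emb_of _ ![.hub, .up 0, .mid 0, .mid 1, .down 2]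
  · decide
  · intro i j
    fin_cases i <;> fin_cases j <;> simp [bull, ofPairs, doubleHalf, dhRel]

theorem emb_cricket : Nonempty (cricket ↪g doubleHalf) := by
  apply emb_of _ ![.hub, .mid 0, .up 0, .mid 1, .mid 2]
  · decide
  · intro i j
    fin_cases i <;> fin_cases j <;> simp [cricket, ofPairs, doubleHalf, dhRel]

/-- Full answer to Q1: the dichotomy, and its instances for the nine graphs of order five that
were unsettled. -/
theorem result :
    (∀ H : SimpleGraph (Fin 5),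
      (∀ k : ℕ, 1 ≤ k → (critSet k H).Finite) ↔
        (IsEmpty (twoP2 ↪g H) ∧ IsEmpty (K3P1 ↪g H) ∧
          IsEmpty (SimpleGraph.cycleGraph 5 ↪g H) ∧
          IsEmpty ((⊤ : SimpleGraph (Fin 5)) ↪g H))) ∧
    (∀ k : ℕ, (critSet k (⊥ : SimpleGraph (Fin 5))).Finite ∧ (critSet k P4P1).Finite ∧
      (critSet k C4P1).Finite ∧ (critSet k chair).Finite ∧ (critSet k bull).Finite ∧
      (critSet k cricket).Finite ∧ (critSet k K5e).Finite ∧ (critSet k coP3P1P1).Finite) ∧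
    (critSet 5 (⊤ : SimpleGraph (Fin 5))).Infinite :=
  ⟨dichotomy, fun k => ⟨finite_doubleHalf _ emb_5P1 k, finite_doubleHalf _ emb_P4P1 k,
    finite_doubleHalf _ emb_C4P1 k, finite_doubleHalf _ emb_chair k,
    finite_doubleHalf _ emb_bull k, finite_doubleHalf _ emb_cricket k,
    finite_of_free _ (Or.inl ⟨SimpleGraph.Embedding.refl⟩) k,
    finite_of_free _ (Or.inr ⟨SimpleGraph.Embedding.refl⟩) k⟩,
    infinite_of _ 4 le_rfl (fun _ ht => fam_K5 ht)⟩

end Pool.Agent.Results.MP_33dc3a_co.Dichotomy
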